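import Mathlib
import Pool.Agent.E8helper63.LT.RatMem
import Pool.Agent.E8helper63.LT.Ext

/-!
# The limit set equals the extended limit set for lattice-point-maximising triangles
-/

set_option autoImplicit false

open Filter Topology

namespace Pool.Agent.Results.MP_a2cf47_nt.LimitSetsEqualH63

/-- the number of lattice points with both coordinates positive in the closed right triangle
with vertices `(0, 0)`, `(α / √β, 0)`, `(0, α √β)` -/
noncomputable def count (β α : ℝ) : ℕ :=
  {x : ℕ × ℕ | 0 < x.1 ∧ 0 < x.2 ∧ (x.2 : ℝ) ≤ α * √β - x.1 * β}.ncard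

/-- the slopes which maximise the count for the area parameter `α` -/
def maximisers (α : ℝ) : Set ℝ :=
  {β : ℝ | 0 < β ∧ ∀ β' : ℝ, 0 < β' → count β' α ≤ count β α}

/-- the limit set -/
def limitSet : Set ℝ := ⋂ r > (0 : ℝ), ⋃ α > r, maximisers α

/-- the extended limit set -/
def extLimitSet : Set ℝ := ⋂ r > (0 : ℝ), closure (⋃ α > r, maximisers α)

open Pool.Agent.E8helper63.LT in
/-- for large area parameters all maximisers lie in `[1/5, 5]` -/
theorem maximisers_bounded :
    ∀ᶠ α : ℝ in atTop, maximisers α ⊆ Set.Icc (1 / 5) 5 := by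
  filter_upwards [far_big, lower_max (t := 21 / 20) (by norm_num)] with α h1 h2 β hβ
  obtain ⟨hβ0, hmax⟩ := hβ
  obtain ⟨β₀, hβ₀, h3⟩ := h2
  have h4 : (cnt β₀ α : ℝ) ≤ cnt β α := by
    have : cnt β₀ α ≤ cnt β α := hmax β₀ hβ₀
    exact_mod_cast this
  constructor
  · by_contra hc
    push Not at hc
    have h5 := h1 β⁻¹ (by
      rw [le_inv_comm₀ (by norm_num) hβ0]
      linarith) (21 / 20) le_rfl
    rw [cnt_inv hβ0] at h5
    linarith
  · by_contra hc
    push Not at hc
    have h5 := h1 β hc.le (21 / 20) le_rfl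
    linarith

open Pool.Agent.E8helper63.LT in
theorem result : limitSet = extLimitSet := by
  apply Set.Subset.antisymm
  · intro β hβ
    unfold limitSet at hβ
    unfold extLimitSet
    rw [Set.mem_iInter₂] at hβ ⊢
    intro r hr
    exact subset_closure (hβ r hr)
  intro β hβ
  unfold extLimitSet at hβ
  rw [Set.mem_iInter₂] at hβ
  unfold limitSet
  rw [Set.mem_iInter₂]
  -- the slope is positive
  have hβ0 : 0 < β := by
    obtain ⟨A, hA⟩ := eventually_atTop.1 maximisers_bounded
    have h1 := hβ (|A| + 1) (by positivity)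
    have h2 : (⋃ α > |A| + 1, maximisers α) ⊆ Set.Icc (1 / 5) 5 := by
      refine Set.iUnion₂_subset fun α hα => hA α ?_
      have := le_abs_self A
      have hα' : |A| + 1 < α := hα
      linarith
    have h3 : β ∈ Set.Icc (1 / 5 : ℝ) 5 := by
      have := closure_mono h2 h1
      rwa [isClosed_Icc.closure_eq] at this
    linarith [h3.1]
  by_cases hsp : ∃ p q : ℕ, 0 < p ∧ 0 < q ∧ Nat.Coprime p q ∧ β = (p : ℝ) / q ∧
      (p : ℝ) + q - 1 < 2 * rr p q
  · obtain ⟨p, q, hp, hq, hpq, rfl, h⟩ := hsp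
    intro r _
    obtain ⟨α, hα, h1⟩ := rat_mem hp hq hpq h r
    exact Set.mem_iUnion₂.2 ⟨α, hα, hβ0, h1⟩
  · obtain ⟨t, ht, U, hU, h1⟩ := nearby hβ0 (by
      intro p q hp hq hpq he
      by_contra hc
      push Not at hc
      exact hsp ⟨p, q, hp, hq, hpq, he, hc⟩)
    obtain ⟨A, hA⟩ := eventually_atTop.1 (h1.and (lower_max ht))
    intro r hr
    have h2 := hβ (max r (|A| + 1)) (lt_max_of_lt_left hr)
    rw [mem_closure_iff_nhds] at h2
    obtain ⟨β', hβ'U, hβ'⟩ := h2 U hU
    rw [Set.mem_iUnion₂] at hβ'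
    obtain ⟨α, hα, hβ'0, hmax⟩ := hβ'
    have hα' : max r (|A| + 1) < α := hα
    have hαr : r < α := lt_of_le_of_lt (le_max_left _ _) hα'
    have hαA : A ≤ α := by
      have := le_abs_self A
      have := lt_of_le_of_lt (le_max_right r (|A| + 1)) hα'
      linarith
    obtain ⟨h3, β₀, hβ₀, h4⟩ := hA α hαA
    refine Set.mem_iUnion₂.2 ⟨α, hαr, hβ0, ?_⟩
    rcases h3 β' hβ'U hβ'0 with h5 | h5
    · intro b hb
      exact (hmax b hb).trans h5
    · exfalso
      have h6 : (cnt β₀ α : ℝ) ≤ cnt β' α := by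
        have : cnt β₀ α ≤ cnt β' α := hmax β₀ hβ₀
        exact_mod_cast this
      linarith

end Pool.Agent.Results.MP_a2cf47_nt.LimitSetsEqualH63
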